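import Pool.Agent.Q81.LtFinal

namespace Pool.Agent.Results.MP_a63caf_co.FiniteGroupsRealised

open Pool.Agent.Q81.LT

/-- **Q1 of MP_a63caf_co, answered affirmatively.** Every finite group is isomorphic to the
automorphism group of a finite locally toroidal abstract `4`-polytope; in fact of one whose facets
and vertex-figures are all spherical. -/
theorem result (G : Type) [Group G] [Finite G] : ∃ (P : Type) (_ : PartialOrder P),
    Finite P ∧ LocallyToroidal P ∧ (∀ F ∈ facets P, Spherical (Set.Iic F)) ∧
    (∀ v ∈ verts P, Spherical (Set.Ici v)) ∧ Nonempty ((P ≃o P) ≃* G) := by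
  obtain ⟨P, hP, h1, h2, h3, h4, h5⟩ := main G
  exact ⟨P, hP, h1, ⟨h2, fun F hF => Or.inl (h3 F hF), fun v hv => Or.inl (h4 v hv)⟩, h3, h4, h5⟩

end Pool.Agent.Results.MP_a63caf_co.FiniteGroupsRealised
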